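import Pool.Agent.Lib.helper21.Cone2
import Pool.Agent.Lib.helper21.PR
import Pool.Agent.Lib.helper4.RegKit

/-! Families of rational relations in Nivat form, and synchronous relations. -/

namespace Pool.Agent.H.MP_567c26_al

open Pool.Agent.Lib.helper21.Cone Pool.Agent.Lib.RegKit

variable {X Y X' Y' Z : Type}

theorem reg_pre [Finite X] [Finite Z] (h : Z → List X) {U : List X → Prop} (r : Reg U) :
    Reg fun w : List Z => U (w.flatMap h) :=
  RatImage.regular ⟨Z, inferInstance, h, fun a => [a], _, reg_univ, fun v =>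
    ⟨fun e => ⟨v, trivial, e, by simp⟩, fun ⟨u, _, hu, e⟩ => by
      obtain rfl : u = v := by simpa using e
      exact hu⟩⟩ r

theorem reg_post [Finite X] [Finite Z] (h : Z → List X) {L : Language Z} (r : L.IsRegular) :
    Reg fun u : List X => ∃ w ∈ L, w.flatMap h = u :=
  RatImage.regular (L := L) ⟨Z, inferInstance, fun a => [a], h, _, reg_univ, fun _ =>
    ⟨fun ⟨w, a, b⟩ => ⟨w, trivial, by simpa using a, b⟩,
      fun ⟨w, _, a, b⟩ => ⟨w, by simpa using a, b⟩⟩⟩ r

def NR [Primcodable Y] (R : ℕ → List X → List Y → Prop) : Prop :=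
  ∃ (Z : Type) (_ : Finite Z) (h : Z → List X) (g : Z → ℕ → List Y) (L : Language Z),
    L.IsRegular ∧ (∀ z, Primrec (g z)) ∧
      ∀ n u v, R n u v ↔ ∃ w ∈ L, w.flatMap h = u ∧ w.flatMap (g · n) = v

variable [Primcodable Y] [Primcodable Y'] {R R' : ℕ → List X → List Y → Prop}

theorem NR.congr (h : NR R) (e : ∀ n u v, R' n u v ↔ R n u v) : NR R' := by
  rwa [show R' = R from funext fun n => funext fun u => funext fun v => propext (e n u v)]

theorem NR.or (h : NR R) (h' : NR R') : NR fun n u v => R n u v ∨ R' n u v := by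
  obtain ⟨Z, _, f, g, L, a, b, c⟩ := h
  obtain ⟨Z', _, f', g', L', a', b', c'⟩ := h'
  refine ⟨Z ⊕ Z', inferInstance, Sum.elim f f', Sum.elim g g', img .inl L + img .inr L',
    (reg_img _ a).add (reg_img _ a'), Sum.rec b b', fun n u v => ?_⟩
  simp only [c, c', Language.mem_add, img]
  constructor
  · rintro (⟨w, p, rfl, rfl⟩ | ⟨w, p, rfl, rfl⟩)
    · exact ⟨_, Or.inl ⟨w, p, rfl⟩, by simp [List.flatMap_map], by simp [List.flatMap_map]⟩
    · exact ⟨_, Or.inr ⟨w, p, rfl⟩, by simp [List.flatMap_map], by simp [List.flatMap_map]⟩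
  · rintro ⟨_, ⟨w, p, rfl⟩ | ⟨w, p, rfl⟩, rfl, rfl⟩
    · exact Or.inl ⟨w, p, by simp [List.flatMap_map], by simp [List.flatMap_map]⟩
    · exact Or.inr ⟨w, p, by simp [List.flatMap_map], by simp [List.flatMap_map]⟩

theorem NR.mul (h : NR R) (h' : NR R') : NR fun n u v =>
    ∃ u1 u2 v1 v2, R n u1 v1 ∧ R' n u2 v2 ∧ u = u1 ++ u2 ∧ v = v1 ++ v2 := by
  obtain ⟨Z, _, f, g, L, a, b, c⟩ := h
  obtain ⟨Z', _, f', g', L', a', b', c'⟩ := h'
  refine ⟨Z ⊕ Z', inferInstance, Sum.elim f f', Sum.elim g g', img .inl L * img .inr L',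
    reg_mul (reg_img _ a) (reg_img _ a'), Sum.rec b b', fun n u v => ?_⟩
  simp only [c, c', Language.mem_mul, img]
  constructor
  · rintro ⟨_, _, _, _, ⟨w, p, rfl, rfl⟩, ⟨w', p', rfl, rfl⟩, rfl, rfl⟩
    exact ⟨_, ⟨_, ⟨w, p, rfl⟩, _, ⟨w', p', rfl⟩, rfl⟩, by simp [List.flatMap_map],
      by simp [List.flatMap_map]⟩
  · rintro ⟨_, ⟨_, ⟨w, p, rfl⟩, _, ⟨w', p', rfl⟩, rfl⟩, rfl, rfl⟩
    exact ⟨_, _, _, _, ⟨w, p, rfl, rfl⟩, ⟨w', p', rfl, rfl⟩, by simp [List.flatMap_map],
      by simp [List.flatMap_map]⟩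

theorem nr_atom (x : List X) {y : ℕ → List Y} (hy : Primrec y) :
    NR fun n u v => u = x ∧ v = y n :=
  ⟨Unit, inferInstance, fun _ => x, fun _ => y, _, reg_single [()], fun _ => hy, fun n u v =>
    ⟨fun h => ⟨[()], rfl, by simp [h.1], by simp [h.2]⟩, by
      rintro ⟨_, rfl, rfl, rfl⟩
      simp⟩⟩

theorem nr_star (x : List X) (y : List Y) : NR fun _ u v =>
    ∃ i, u = (List.replicate i x).flatten ∧ v = (List.replicate i y).flatten :=
  ⟨Unit, inferInstance, fun _ => x, fun _ _ => y, _, reg_univ, fun _ => .const _, fun n u v =>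
    ⟨fun ⟨i, a, b⟩ => ⟨List.replicate i (), trivial, by simp [a, List.flatMap_def],
      by simp [b, List.flatMap_def]⟩, by
      rintro ⟨w, -, rfl, rfl⟩
      exact ⟨w.length, by simp [List.flatMap_def], by simp [List.flatMap_def]⟩⟩⟩

theorem nr_hom [Finite X] (φ : X → List Y) {U : List X → Prop} (r : Reg U) :
    NR fun _ u v => U u ∧ v = u.flatMap φ :=
  ⟨X, inferInstance, fun a => [a], fun a _ => φ a, _, r, fun _ => .const _, fun n u v =>
    ⟨fun h => ⟨u, h.1, by simp, h.2.symm⟩, by
      rintro ⟨w, p, rfl, rfl⟩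
      have p : U w := p
      simpa using p⟩⟩

theorem NR.restrict [Finite X] (h : NR R) {U : List X → Prop} (r : Reg U) :
    NR fun n u v => U u ∧ R n u v := by
  obtain ⟨Z, _, f, g, L, a, b, c⟩ := h
  refine ⟨Z, inferInstance, f, g, _, a.inf (reg_pre f r), b, fun n u v => ?_⟩
  simp only [c]
  exact ⟨fun ⟨p, w, q, e, e'⟩ => ⟨w, ⟨q, (e ▸ p : U (w.flatMap f))⟩, e, e'⟩,
    fun ⟨w, q, e, e'⟩ => ⟨e ▸ q.2, w, q.1, e, e'⟩⟩

theorem NR.dom [Finite X] (h : NR R) : ∃ U, Reg U ∧ ∀ n u, (∃ v, R n u v) ↔ U u := by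
  obtain ⟨Z, _, f, g, L, a, -, c⟩ := h
  refine ⟨_, reg_post f a, fun n u => ?_⟩
  simp only [c]
  exact ⟨fun ⟨_, w, p, q, _⟩ => ⟨w, p, q⟩, fun ⟨w, p, q⟩ => ⟨_, w, p, q, rfl⟩⟩

theorem NR.map [Finite Y] (h : NR R) (f : X → X') (g : Y → Y') :
    NR fun n u v => ∃ u' v', R n u' v' ∧ u = u'.map f ∧ v = v'.map g := by
  obtain ⟨Z, _, f', g', L, a, b, c⟩ := h
  refine ⟨Z, inferInstance, fun z => (f' z).map f, fun z n => (g' z n).map g, L, a,
    fun z => Primrec.list_map (b z) ((Primrec.dom_finite g).comp Primrec.snd).to₂,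
    fun n u v => ?_⟩
  simp only [c]
  constructor
  · rintro ⟨_, _, ⟨w, p, rfl, rfl⟩, rfl, rfl⟩
    exact ⟨w, p, by simp [List.map_flatMap], by simp [List.map_flatMap]⟩
  · rintro ⟨w, p, rfl, rfl⟩
    exact ⟨_, _, ⟨w, p, rfl, rfl⟩, by simp [List.map_flatMap], by simp [List.map_flatMap]⟩

theorem nr_false : NR fun _ (_ : List X) (_ : List Y) => False :=
  ⟨Unit, inferInstance, fun _ => [], fun _ _ => [], _, reg_univ.compl, fun _ => .const _,
    fun _ _ _ => ⟨False.elim, fun ⟨_, h, _⟩ => h trivial⟩⟩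

theorem nr_ex {ι : Type} [Finite ι] {R : ι → ℕ → List X → List Y → Prop} (h : ∀ i, NR (R i)) :
    NR fun n u v => ∃ i, R i n u v := by
  have k : ∀ l : List ι, NR fun n u v => ∃ i ∈ l, R i n u v := fun l => by
    induction l with
    | nil => exact nr_false.congr (by simp)
    | cons a l ih => exact ((h a).or ih).congr (by simp)
  have := Fintype.ofFinite ι
  exact (k Finset.univ.toList).congr (by simp)

theorem nr_if {P : Prop} (h : P → NR R) : NR fun n u v => P ∧ R n u v := by
  by_cases k : P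
  · exact (h k).congr (by simp [k])
  · exact nr_false.congr (by simp [k])

def Syn (R : List X → List X → Prop) : Prop := Reg fun z => ∃ u v, R u v ∧ z = conv u v

theorem reg_valid [Finite X] : Reg fun z : List (Option X × Option X) => Valid z :=
  (reg_pairwise _).and (reg_all _)

theorem syn_iff {R : List X → List X → Prop} {z} :
    (∃ u v, R u v ∧ z = conv u v) ↔ Valid z ∧ R (w1 z) (w2 z) :=
  ⟨by
    rintro ⟨u, v, h, rfl⟩
    rw [(w_conv u v).1, (w_conv u v).2]
    exact ⟨valid_conv u v, h⟩, fun h => ⟨_, _, h.2, valid_eq z h.1⟩⟩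

theorem Syn.or {R R' : List X → List X → Prop} (h : Syn R) (h' : Syn R') :
    Syn fun u v => R u v ∨ R' u v := (Reg.or h h').congr fun z => by
  simp only [syn_iff, and_or_left]

theorem Syn.congr {R R' : List X → List X → Prop} (h : Syn R) (e : ∀ u v, R' u v ↔ R u v) :
    Syn R' := Reg.congr h fun z => by simp only [e]

theorem syn_prod [Finite X] {U V : List X → Prop} (r : Reg U) (r' : Reg V) :
    Syn fun u v => U u ∧ V v :=
  (reg_valid.and ((reg_pre (fun z : Option X × Option X => z.1.toList) r).and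
    (reg_pre (fun z : Option X × Option X => z.2.toList) r'))).congr fun z => by
    simp only [syn_iff, w1, w2, List.filterMap_eq_flatMap_toList]

theorem pre_of_len {a b c d : List X} (e : a ++ b = c ++ d) (h : a.length ≤ c.length) :
    ∃ r, c = a ++ r ∧ b = r ++ d := by
  rcases List.append_eq_append_iff.1 e with ⟨t, rfl, rfl⟩ | ⟨t, rfl, rfl⟩
  · exact ⟨t, rfl, rfl⟩
  · obtain rfl : t = [] := List.length_eq_zero_iff.1 (by rw [List.length_append] at h; omega)
    exact ⟨[], by simp, by simp⟩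

theorem NR.syn [Finite X] [Primcodable X] {R : ℕ → List X → List X → Prop} (h : NR R) (n D : ℕ)
    (hD : ∀ u v, R n u v → u.length ≤ v.length + D ∧ v.length ≤ u.length + D) : Syn (R n) := by
  obtain ⟨Z, _, f, g', L, a, -, c⟩ := h
  generalize hg : (fun z => g' z n) = g at c
  have c := c n
  rw [hg] at c
  obtain ⟨σ, _, δ, s, F, e⟩ := reg_iff.1 a
  obtain ⟨σ', _, δ', s', F', e'⟩ := reg_iff.1 (reg_valid (X := X))
  obtain ⟨k1, h1⟩ := exists_bound f
  obtain ⟨k2, h2⟩ := exists_bound g
  have : ∀ q, ∃ t : List Z, (∃ t' : List Z, F (t'.foldl δ q)) → F (t.foldl δ q) := fun q => by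
    by_cases k : ∃ t' : List Z, F (t'.foldl δ q)
    exacts [⟨k.choose, fun _ => k.choose_spec⟩, ⟨[], fun g => (k g).elim⟩]
  choose t ht using this
  obtain ⟨k3, h3⟩ := exists_bound fun q => (t q).flatMap f ++ (t q).flatMap g
  have lag : ∀ p p' : List Z, p ++ p' ∈ L → (p.flatMap f).length ≤ (p.flatMap g).length + D + k3 ∧
      (p.flatMap g).length ≤ (p.flatMap f).length + D + k3 := by
    intro p p' hp
    rw [e, List.foldl_append] at hp
    have := hD _ _ ((c _ _).2 ⟨p ++ t (p.foldl δ s), by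
      rw [e, List.foldl_append]; exact ht _ ⟨_, hp⟩, rfl, rfl⟩)
    have := h3 (p.foldl δ s)
    simp only [List.flatMap_append, List.length_append] at *
    omega
  have := (List.finite_length_le X (k1 + k2 + 2 * D + k3)).to_subtype
  refine Reg.congr ?_ fun z => syn_iff.symm
  refine reg_of_col (fun z => (z.foldl δ' s', {y : σ × {l : List X | l.length ≤ k1 + k2 + 2 * D + k3}
    × {l : List X | l.length ≤ k1 + k2 + 2 * D + k3} | ∃ p : List Z, p.foldl δ s = y.1 ∧
      p.flatMap f ++ y.2.1.1 = w1 z ∧ p.flatMap g ++ y.2.2.1 = w2 z})) fun z z' k τ hz => ?_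
  obtain ⟨k0, k⟩ := Prod.mk.inj k
  obtain ⟨v0, hz⟩ := hz
  refine ⟨(e' _).2 (by rw [List.foldl_append, ← k0, ← List.foldl_append]; exact (e' _).1 v0), ?_⟩
  have d := hD _ _ hz
  obtain ⟨t1, t2⟩ := take_conv (w1 (z ++ τ)) (w2 (z ++ τ)) z.length
  rw [← valid_eq _ v0, List.take_left] at t1 t2
  have l1 := congrArg List.length t1
  have l2 := congrArg List.length t2
  rw [List.length_take] at l1 l2
  obtain ⟨w, b1, b2, b3⟩ := (c _ _).1 hz
  have key : ∀ p' p : List Z, p ++ p' = w → (p.flatMap f).length ≤ (w1 z).length →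
      (p.flatMap g).length ≤ (w2 z).length → ∃ p p' : List Z, p ++ p' = w ∧
        (p.flatMap f).length ≤ (w1 z).length ∧ (p.flatMap g).length ≤ (w2 z).length ∧
        (w1 z).length ≤ (p.flatMap f).length + (k1 + k2 + 2 * D + k3) ∧
        (w2 z).length ≤ (p.flatMap g).length + (k1 + k2 + 2 * D + k3) := by
    intro p'
    induction p' with
    | nil =>
      intro p e1 e2 e3
      rw [List.append_nil] at e1
      subst e1
      exact ⟨p, [], by simp, e2, e3, by rw [b2]; omega, by rw [b3]; omega⟩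
    | cons y p' ih =>
      intro p e1 e2 e3
      by_cases g : ((p ++ [y]).flatMap f).length ≤ (w1 z).length ∧
          ((p ++ [y]).flatMap g).length ≤ (w2 z).length
      · exact ih _ (by simpa using e1) g.1 g.2
      have := lag p _ (e1 ▸ b1)
      have := h1 y
      have := h2 y
      simp only [List.flatMap_append, List.length_append, List.flatMap_singleton] at g
      exact ⟨p, _, e1, e2, e3, by omega, by omega⟩
  obtain ⟨p, p', rfl, e2, e3, e4, e5⟩ := key w [] rfl (by simp) (by simp)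
  simp only [w1, w2, List.filterMap_append, List.flatMap_append] at b2 b3 ⊢
  obtain ⟨r1, f1, g1⟩ := pre_of_len b2 e2
  obtain ⟨r2, f2, g2⟩ := pre_of_len b3 e3
  have m1 := congrArg List.length f1
  have m2 := congrArg List.length f2
  simp only [List.length_append, w1, w2] at m1 m2 e4 e5
  obtain ⟨p0, j1, j2, j3⟩ := (Set.ext_iff.1 k (p.foldl δ s, ⟨r1, by simp; omega⟩,
    ⟨r2, by simp; omega⟩)).1 ⟨p, rfl, f1.symm, f2.symm⟩
  simp only [w1, w2] at j1 j2 j3
  refine (c _ _).2 ⟨p0 ++ p', ?_, by rw [List.flatMap_append, g1, ← j2, List.append_assoc],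
    by rw [List.flatMap_append, g2, ← j3, List.append_assoc]⟩
  rw [e, List.foldl_append] at b1 ⊢
  rwa [j1]

theorem len_conv (u v : List X) : (conv u v).length = max u.length v.length := by
  induction u generalizing v with
  | nil => simp [conv]
  | cons a u ih =>
    cases v with
    | nil => simp [conv]
    | cons b v =>
      have := ih v
      simp only [conv] at this
      simp [conv, this]

theorem Syn.pump {R : List X → List X → Prop} (h : Syn R) : ∃ K, ∀ u v, R u v →
    (v.length + K ≤ u.length → ∀ N, ∃ u', R u' v ∧ N ≤ u'.length) ∧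
      (u.length + K ≤ v.length → ∀ N, ∃ v', R u v' ∧ N ≤ v'.length) := by
  obtain ⟨σ, _, M, hM⟩ := h
  have hM' : ∀ z, M.eval z ∈ M.accept ↔ Valid z ∧ R (w1 z) (w2 z) := fun z => by
    rw [← syn_iff, ← DFA.mem_accepts, hM]; rfl
  have key : ∀ z1 z2 : List (Option X × Option X), Fintype.card σ ≤ z2.length →
      M.eval (z1 ++ z2) ∈ M.accept → ∀ N, ∃ z3, M.eval (z1 ++ z3) ∈ M.accept ∧ N ≤ z3.length ∧
        ∀ y ∈ z3, y ∈ z2 := by
    intro z1 z2 hl ha N
    obtain ⟨q, a, b, c, rfl, -, e2, e3, e4, e5⟩ := M.evalFrom_split hl (rfl (a := M.evalFrom (M.eval z1) z2))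
    have : ∀ i, M.evalFrom q (List.replicate i b).flatten = q := fun i => by
      induction i with
      | zero => rfl
      | succ i ih => rw [List.replicate_succ, List.flatten_cons, DFA.evalFrom_of_append, e4, ih]
    refine ⟨a ++ (List.replicate N b).flatten ++ c, ?_, ?_, fun y hy => ?_⟩
    · rw [DFA.eval, DFA.evalFrom_of_append] at ha ⊢
      rw [DFA.evalFrom_of_append, DFA.evalFrom_of_append]
      erw [e3]
      rw [this, e5]
      exact ha
    · have := List.length_pos_iff.2 e2
      simp only [List.length_append, List.length_flatten, List.map_replicate, List.sum_replicate,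
        smul_eq_mul]
      nlinarith
    · simp only [List.mem_append, List.mem_flatten, List.mem_replicate] at hy ⊢
      rcases hy with (g | ⟨_, ⟨-, rfl⟩, g⟩) | g <;> simp [g]
  refine ⟨Fintype.card σ, fun u v r => ?_⟩
  have acc : M.eval (conv u v) ∈ M.accept := (hM' _).2 (syn_iff.1 ⟨u, v, r, rfl⟩)
  refine ⟨fun g N => ?_, fun g N => ?_⟩
  · obtain ⟨z, a, b, c⟩ := key ((conv u v).take v.length) ((conv u v).drop v.length)
      (by rw [List.length_drop, len_conv]; omega) (by rwa [List.take_append_drop]) (N + v.length + 1)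
    obtain ⟨a1, a2⟩ := (hM' _).1 a
    have t := (take_conv u v v.length).2
    have t' := (w_conv u v).2
    rw [← List.take_append_drop v.length (conv u v), w2, List.filterMap_append, ← w2, t,
      List.take_length, List.append_right_eq_self, List.filterMap_eq_nil_iff] at t'
    have e : w2 ((conv u v).take v.length ++ z) = v := by
      rw [w2, List.filterMap_append, ← w2, t, List.take_length, List.append_right_eq_self,
        List.filterMap_eq_nil_iff]
      exact fun y hy => t' y (c y hy)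
    have := congrArg List.length (valid_eq _ a1)
    rw [len_conv, e, List.length_append] at this
    exact ⟨_, e ▸ a2, by omega⟩
  · obtain ⟨z, a, b, c⟩ := key ((conv u v).take u.length) ((conv u v).drop u.length)
      (by rw [List.length_drop, len_conv]; omega) (by rwa [List.take_append_drop]) (N + u.length + 1)
    obtain ⟨a1, a2⟩ := (hM' _).1 a
    have t := (take_conv u v u.length).1
    have t' := (w_conv u v).1
    rw [← List.take_append_drop u.length (conv u v), w1, List.filterMap_append, ← w1, t,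
      List.take_length, List.append_right_eq_self, List.filterMap_eq_nil_iff] at t'
    have e : w1 ((conv u v).take u.length ++ z) = u := by
      rw [w1, List.filterMap_append, ← w1, t, List.take_length, List.append_right_eq_self,
        List.filterMap_eq_nil_iff]
      exact fun y hy => t' y (c y hy)
    have := congrArg List.length (valid_eq _ a1)
    rw [len_conv, e, List.length_append] at this
    exact ⟨_, e ▸ a2, by omega⟩

end Pool.Agent.H.MP_567c26_al
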