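import Mathlib

/-! Quasi-automatic and automatic structures for semigroups. -/

namespace Pool.Agent.H.MP_567c26_al

/-- The value of a word under the letter map `g` (the empty word has the adjoined value `1`). -/
def mu {A S : Type} [Semigroup S] (g : A → S) (u : List A) : WithOne S :=
  (u.map fun a => (g a : WithOne S)).prod

/-- `L` is a set of nonempty words representing every element of `S`. -/
def Onto {A S : Type} [Semigroup S] (g : A → S) (L : List A → Prop) : Prop :=
  ¬L [] ∧ ∀ s : S, ∃ u, L u ∧ mu g u = s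

/-- The relation `R_L` (for `w = []`) and the relations `R_{L,a}` (for `w = [a]`). -/
def Rel {A S : Type} [Semigroup S] (g : A → S) (L : List A → Prop) (w u v : List A) : Prop :=
  L u ∧ L v ∧ mu g (u ++ w) = mu g v

/-- The padded pairs `δ(u, v)`, `(u, v) ∈ R`, form a regular language; `none` is the symbol `$`. -/
def Sync {A : Type} (R : List A → List A → Prop) : Prop :=
  Language.IsRegular {z | ∃ u v, R u v ∧ z = List.zipWithAll Prod.mk u v}

/-- `S` is synchronously automatic; if `P` holds, distinct letters must name distinct elements. -/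
def Automatic (P : Prop) (S : Type) [Semigroup S] : Prop :=
  ∃ (k : ℕ) (g : Fin k → S) (L : List (Fin k) → Prop), (P → Function.Injective g) ∧
    Language.IsRegular {u | L u} ∧ Onto g L ∧ Sync (Rel g L []) ∧ ∀ a, Sync (Rel g L [a])

/-- Two-tape automata: transitions `(p, x, y, q)`, initial states and final states. -/
abbrev Aut : Type := List (ℕ × List ℕ × List ℕ × ℕ) × List ℕ × List ℕ

inductive Run (δ : List (ℕ × List ℕ × List ℕ × ℕ)) : ℕ → List ℕ → List ℕ → ℕ → Prop
  | nil (p : ℕ) : Run δ p [] [] p
  | cons {p q r : ℕ} {x y u v : List ℕ} : (p, x, y, q) ∈ δ → Run δ q u v r →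
      Run δ p (x ++ u) (y ++ v) r

def Acc {k : ℕ} (M : Aut) (u v : List (Fin k)) : Prop :=
  ∃ p ∈ M.2.1, ∃ q ∈ M.2.2, Run M.1 p (u.map Fin.val) (v.map Fin.val) q

/-- Inputs: alphabet size, automata for `L` (second tape empty), for `R_L`, and for each
`R_{L,a}`. -/
abbrev Code : Type := ℕ × Aut × Aut × List Aut

/-- The input `c` is a quasi-automatic structure for `S`. -/
def Quasi (c : Code) (S : Type) [Semigroup S] : Prop :=
  ∃ g : Fin c.1 → S, Function.Injective g ∧ Onto g (fun u => Acc c.2.1 u []) ∧
    (∀ u v, Acc c.2.2.1 u v ↔ Rel g (fun u => Acc c.2.1 u []) [] u v) ∧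
    ∀ a : Fin c.1, ∃ M, c.2.2.2[a.val]? = some M ∧
      ∀ u v, Acc M u v ↔ Rel g (fun u => Acc c.2.1 u []) [a] u v

end Pool.Agent.H.MP_567c26_al
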