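import Pool.Agent.H.MP_567c26_al.A
import Pool.Agent.H.MP_567c26_al.Def
import Pool.Agent.Lib.helper21.Mach

/-! The semigroup attached to a counter machine; it is not automatic if the machine runs
forever. -/

namespace Pool.Agent.H.MP_567c26_al

open Pool.Agent.Lib.helper21.While Pool.Agent.Lib.helper21.Mach Function Classical

structure Dat (Q : Type) (K : ℕ) where
  M : CM Q
  ρ : Q → Fin K
  q0 : Q
  r0 : Fin K
  hρ : ∀ q, (ρ q).val = M.reg q
  h0 : r0.val = 0

abbrev B (Q : Type) (K : ℕ) : Type := Q ⊕ Bool ⊕ Option (Fin K)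
abbrev Yl (Q : Type) (K : ℕ) : Type := B Q K ⊕ Bool
abbrev Pf (Q : Type) (K : ℕ) : Type := ℕ × ℕ × Option (Q × List (Option (Fin K)))

variable {Q : Type} {K : ℕ}

def lr (c : Option (Fin K)) : B Q K := .inr (.inr c)

def wo : Option (Q × List (Option (Fin K))) → List (B Q K)
  | none => []
  | some o => .inl o.1 :: o.2.map lr

def wd (p : Pf Q K) : List (B Q K) :=
  List.replicate p.1 (.inr (.inl true)) ++ List.replicate p.2.1 (.inr (.inl false)) ++ wo p.2.2

noncomputable def apd (p : Pf Q K) : B Q K → Option (Pf Q K)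
  | .inl q => if p.2.2 = none then some (p.1, p.2.1, some (q, [])) else none
  | .inr (.inl true) => if p.2.2 = none ∧ p.2.1 = 0 then some (p.1 + 1, 0, none) else none
  | .inr (.inl false) => if p.2.2 = none then some (p.1, p.2.1 + 1, none) else none
  | .inr (.inr c) => p.2.2.map fun o => (p.1, p.2.1, some (o.1, o.2 ++ [c]))

def ef (e : Option Bool) (x : Fin K) (w : List (Option (Fin K))) : List (Option (Fin K)) :=
  match e with
  | none => w
  | some true => some x :: w
  | some false => none :: w.erase (some x)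

variable (D : Dat Q K) (n : ℕ)

def Tn (p p' : Pf Q K) : Prop := ∃ r j q w q', D.M.nxt q (decide (some (D.ρ q) ∉ w)) = some q' ∧
  p = (r + 1, j, some (q, w)) ∧
    p' = (r, j + 1, some (q', ef (D.M.eff q (decide (some (D.ρ q) ∉ w))) (D.ρ q) w))

def Tr (p p' : Pf Q K) : Prop := ∃ j q w, p = (0, j, some (q, w)) ∧
  p' = (j + 1, 0, some (D.q0, List.replicate n (some D.r0) ++ w.map fun _ => none))

def Tt (c c' : Pf Q K × ℕ) : Prop :=
  (Tn D c.1 c'.1 ∧ c'.2 = c.2) ∨ (Tr D n c.1 c'.1 ∧ c.2 = 2 * c'.2)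

theorem Tt_fun {c c' c''} (h : Tt D n c c') (h' : Tt D n c c'') : c' = c'' := by
  obtain ⟨p, m⟩ := c
  obtain ⟨p', m'⟩ := c'
  obtain ⟨p'', m''⟩ := c''
  rcases h with ⟨⟨r, j, q, w, q', a, rfl, rfl⟩, e⟩ | ⟨⟨j, q, w, rfl, rfl⟩, e⟩ <;>
    rcases h' with ⟨⟨r, j, q, w, q', a', b, rfl⟩, e'⟩ | ⟨⟨j, q, w, b, rfl⟩, e'⟩ <;>
    simp only [Prod.mk.injEq, Option.some.injEq] at b e e' ⊢ <;> grind

noncomputable def stp : Option (Pf Q K × ℕ) → Yl Q K → Option (Pf Q K × ℕ)
  | none, _ => none
  | some c, .inl y => if c.2 = 0 then (apd c.1 y).map (·, 0) else none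
  | some c, .inr true => some (c.1, c.2 + 1)
  | some c, .inr false => if h : ∃ c', Tt D n c c' then some h.choose else none

theorem stp_t {c c'} : stp D n (some c) (.inr false) = some c' ↔ Tt D n c c' := by
  simp only [stp]
  split_ifs with h
  · exact ⟨fun e => Option.some.inj e ▸ h.choose_spec,
      fun e => congrArg some (Tt_fun D n h.choose_spec e)⟩
  · exact ⟨nofun, fun e => (h ⟨_, e⟩).elim⟩

theorem fold_none (l : List (Yl Q K)) : l.foldl (stp D n) none = none := by
  induction l with
  | nil => rfl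
  | cons a l ih => exact ih

def SG (_ : Dat Q K) (_ : ℕ) : Type := (Yl Q K × List (Yl Q K)) ⊕ Option (Pf Q K × ℕ)

noncomputable def sm : SG D n → SG D n → SG D n
  | .inl a, .inl b => .inl (a.1, a.2 ++ b.1 :: b.2)
  | .inr c, .inl b => .inr ((b.1 :: b.2).foldl (stp D n) c)
  | _, .inr _ => .inr none

noncomputable instance : Semigroup (SG D n) where
  mul := sm D n
  mul_assoc := by
    rintro (a | a) (b | b) (c | c) <;> change sm D n (sm D n _ _) _ = sm D n _ (sm D n _ _) <;>
      simp [sm, fold_none, stp]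

variable {D n}

def z0 : SG D n := .inr none
def cf (p : Pf Q K) (m : ℕ) : SG D n := .inr (some (p, m))
def tw (y : Yl Q K) (l : List (Yl Q K)) : SG D n := .inl (y, l)

theorem mul_def (a b : SG D n) : a * b = sm D n a b := rfl

theorem apd_wd {p p' : Pf Q K} {c} (h : apd p c = some p') : wd p' = wd p ++ [c] := by
  obtain ⟨r, j, o⟩ := p
  rcases c with q | (_ | _) | c <;> simp only [apd] at h
  · split_ifs at h with g
    obtain rfl := Option.some.inj h
    subst g
    simp [wd, wo]
  · split_ifs at h with g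
    obtain rfl := Option.some.inj h
    subst g
    simp [wd, wo, List.replicate_succ']
  · split_ifs at h with g
    obtain rfl := Option.some.inj h
    obtain ⟨rfl, rfl⟩ := g
    simp [wd, wo, List.replicate_succ']
  · obtain ⟨o, rfl, rfl⟩ := Option.map_eq_some_iff.1 h
    simp [wd, wo, lr]

theorem len_ef (e x) (w : List (Option (Fin K))) :
    w.length ≤ (ef e x w).length ∧ (ef e x w).length ≤ w.length + 1 := by
  rcases e with _ | _ | _ <;> simp only [ef, List.length_cons, List.length_erase] <;>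
    (try split_ifs) <;> omega

theorem Tn.len {p p'} (h : Tn D p p') : (wd p).length ≤ (wd p').length ∧
    (wd p').length ≤ (wd p).length + 1 ∧ p'.2.1 = p.2.1 + 1 := by
  obtain ⟨r, j, q, w, q', -, rfl, rfl⟩ := h
  have := len_ef (D.M.eff q (decide (some (D.ρ q) ∉ w))) (D.ρ q) w
  simp [wd, wo] at this ⊢
  omega

theorem Tr.len {p p'} (h : Tr D n p p') : (wd p').length = (wd p).length + n + 1 := by
  obtain ⟨j, q, w, rfl, rfl⟩ := h
  simp [wd, wo]
  omega

def th (c : Pf Q K × ℕ) : ℕ := (wd c.1).length ^ 2 + c.1.2.1 + 2 ^ (wd c.1).length * c.2 + 1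

theorem j_le (p : Pf Q K) : p.2.1 ≤ (wd p).length := by simp [wd]; omega

theorem stp_mono {c c' y} (h : stp D n (some c) y = some c') : th c < th c' ∧ c'.2 ≤ c.2 + 1 := by
  obtain ⟨p, m⟩ := c
  obtain ⟨p', m'⟩ := c'
  have := j_le p
  rcases y with y | _ | _
  · simp only [stp] at h
    split_ifs at h with g
    obtain ⟨p'', h', e⟩ := Option.map_eq_some_iff.1 h
    obtain ⟨rfl, rfl⟩ := Prod.mk.inj e
    subst g
    simp only [th, apd_wd h', List.length_append, List.length_singleton]
    exact ⟨by nlinarith, by omega⟩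
  · rcases (stp_t D n).1 h with ⟨a, e⟩ | ⟨a, e⟩ <;> simp only at a e <;> subst e
    · obtain ⟨a1, -, a2⟩ := a.len
      have := Nat.mul_le_mul_right m' (Nat.pow_le_pow_right two_pos a1)
      have := Nat.pow_le_pow_left a1 2
      simp only [th]
      omega
    · have a1 : (wd p).length + 1 ≤ (wd p').length := by rw [a.len]; omega
      have := Nat.mul_le_mul_right m' (Nat.pow_le_pow_right two_pos a1)
      have := Nat.pow_le_pow_left a1 2
      simp only [th, pow_succ] at *
      exact ⟨by nlinarith, by omega⟩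
  · obtain ⟨rfl, rfl⟩ := Prod.mk.inj (Option.some.inj h)
    have := Nat.pos_of_ne_zero (pow_ne_zero (wd p).length two_ne_zero)
    simp only [th]
    exact ⟨by nlinarith, le_rfl⟩

theorem fold_mono : ∀ (l : List (Yl Q K)) {c c'}, l.foldl (stp D n) (some c) = some c' →
    th c + l.length ≤ th c' ∧ c'.2 ≤ c.2 + l.length
  | [], _, _, h => by obtain rfl := Option.some.inj h; simp
  | y :: l, c, c', h => by
    rw [List.foldl_cons] at h
    rcases e : stp D n (some c) y with _ | d
    · rw [e, fold_none] at h; cases h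
    · rw [e] at h
      have := stp_mono e
      have := fold_mono l h
      simp only [List.length_cons]
      omega

def θ : SG D n → ℕ
  | .inl a => a.2.length + 1
  | .inr c => (c.map th).getD 0

def ξ : SG D n → ℕ
  | .inl a => a.2.length + 1
  | .inr c => (c.map Prod.snd).getD 0

theorem mul_mono (a b : SG D n) :
    (a * b ≠ z0 → a ≠ z0 ∧ θ a < θ (a * b)) ∧ ξ (a * b) ≤ ξ a + ξ b := by
  rcases a with a | _ | a <;> rcases b with b | b <;> simp only [mul_def, sm, z0, fold_none]
  · simp [θ, ξ]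
  · simp [ξ]
  · simp [ξ]
  · simp [ξ]
  · rcases e : (b.1 :: b.2).foldl (stp D n) (some a) with _ | c
    · simp [ξ]
    · have := fold_mono _ e
      simp only [θ, ξ, List.length_cons, Option.map_some, Option.getD_some] at this ⊢
      exact ⟨fun _ => ⟨nofun, by omega⟩, by omega⟩
  · simp [ξ]

theorem mu_append {A S : Type} [Semigroup S] (g : A → S) (u v : List A) :
    mu g (u ++ v) = mu g u * mu g v := by simp [mu]

theorem mu_single {A S : Type} [Semigroup S] (g : A → S) (a : A) : mu g [a] = g a := by simp [mu]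

theorem mu_snoc {A S : Type} [Semigroup S] {g : A → S} {u : List A} {a : A} {e : S}
    (h : mu g (u ++ [a]) = e) : (u = [] ∧ g a = e) ∨ ∃ e' : S, mu g u = e' ∧ e' * g a = e := by
  rw [mu_append, mu_single] at h
  rcases u with _ | ⟨b, u⟩
  · exact Or.inl ⟨rfl, by simpa [mu] using h⟩
  · induction' k : mu g (b :: u) using WithOne.recOneCoe with e'
    · have : ∀ (u : List A) (s : S), (s : WithOne S) * mu g u ≠ 1 := fun u => by
        induction u with
        | nil => simp [mu]
        | cons c u ih =>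
          intro s
          rw [show mu g (c :: u) = g c * mu g u by simp [mu], ← mul_assoc, ← WithOne.coe_mul]
          exact ih _
      exact (this u (g b) (by simpa [mu] using k)).elim
    · rw [k, ← WithOne.coe_mul, WithOne.coe_inj] at h
      exact Or.inr ⟨e', rfl, h⟩

theorem mu_bd {A : Type} (g : A → SG D n) {k : ℕ} (hk : ∀ a, ξ (g a) ≤ k) (u : List A) :
    ∀ e : SG D n, mu g u = e → (e ≠ z0 → u.length ≤ θ e) ∧ ξ e ≤ k * u.length := by
  induction u using List.reverseRecOn with
  | nil => exact fun e h => by simp [mu] at h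
  | append_singleton u a ih =>
    intro e h
    rcases mu_snoc h with ⟨rfl, rfl⟩ | ⟨e', h', rfl⟩
    · refine ⟨fun g' => ?_, by simpa using hk a⟩
      rcases k : g a with b | _ | c
      exacts [by simp [θ], (g' k).elim, by simp [θ, th]]
    · have := ih e' h'
      have := mul_mono e' (g a)
      have := hk a
      simp only [List.length_append, List.length_singleton, mul_add]
      grind

def cnt (w : List (Option (Fin K))) : St := fun i => if h : i < K then w.count (some ⟨i, h⟩) else 0

theorem cnt_tst (q : Q) (w) : D.M.tst 0 (q, cnt w) = decide (some (D.ρ q) ∉ w) := by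
  simp [CM.tst, CM.thr, cnt, ← D.hρ, List.count_eq_zero]

theorem cnt_ef (e) (x : Fin K) (w) : cnt (ef e x w) = app e x (cnt w) := by
  funext i
  by_cases h : i = x
  · subst h
    rcases e with _ | _ | _ <;> simp [ef, app, cnt]
  · have : ∀ g, (⟨i, g⟩ : Fin K) ≠ x := fun _ e => h (congrArg Fin.val e)
    rcases e with _ | _ | _ <;> simp [ef, app, cnt, update_of_ne h, this,
      (this _).symm]

theorem cnt_init (w : List (Option (Fin K))) :
    cnt (List.replicate n (some D.r0) ++ w.map fun _ => none) = init n := by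
  funext i
  have h0 := D.h0
  have := D.r0.2
  by_cases h : i = 0
  · subst h
    have e : D.r0 = ⟨0, by omega⟩ := Fin.ext D.h0
    simp [cnt, init, show 0 < K by omega, ← e, List.count_eq_zero]
  · have : ∀ g, D.r0 ≠ ⟨i, g⟩ := fun _ e => h (by rw [e] at h0; exact h0)
    simp [cnt, init, update_of_ne h, List.count_eq_zero, List.count_replicate, this]

theorem step_cnt (q : Q) (w) : D.M.step 0 (q, cnt w) =
    (D.M.nxt q (decide (some (D.ρ q) ∉ w))).map fun q' =>
      (q', cnt (ef (D.M.eff q (decide (some (D.ρ q) ∉ w))) (D.ρ q) w)) := by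
  simp only [CM.step, cnt_tst, cnt_ef, D.hρ]

theorem not_auto {P : Prop} (hn : ¬Halts (D.M.step 0) (D.q0, init n)) :
    ¬Automatic P (SG D n) := by
  rintro ⟨k, g, L, -, -, ⟨-, hon⟩, -, sy⟩
  choose rep r1 r2 using hon
  obtain ⟨C, hC⟩ := (Set.finite_range fun a => ξ (g a)).bddAbove
  have bd := mu_bd g (k := C) fun a => hC ⟨a, rfl⟩
  have gen : ∀ y, ∃ a, g a = tw y [] := fun y => by
    have h := r2 (tw y [])
    have := (bd _ _ h).1 nofun
    rcases List.eq_nil_or_concat (rep (tw y [])) with e | ⟨u, a, e⟩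
    · simp [e, mu] at h
    · rw [e, List.concat_eq_append] at h this
      obtain rfl : u = [] := List.length_eq_zero_iff.1 (by simp [θ, tw] at this; simp [this])
      exact ⟨a, by simpa [mu] using h⟩
  have lip : ∀ y, ∃ E, ∀ e e' : SG D n, e * tw y [] = e' → e' ≠ z0 →
      (rep e).length ≤ (rep e').length + E ∧ (rep e').length ≤ (rep e).length + E := fun y => by
    obtain ⟨a, ha⟩ := gen y
    obtain ⟨E, hE⟩ := Syn.pump (sy a)
    refine ⟨E, fun e e' h h' => ?_⟩
    have := hE (rep e) (rep e') ⟨r1 _, r1 _, by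
      rw [mu_append, mu_single, r2, r2, ha, ← WithOne.coe_mul, h]⟩
    constructor <;> by_contra g'
    · obtain ⟨u, ⟨-, -, b⟩, c⟩ := this.1 (by omega) (θ e')
      have := (bd _ _ (b.trans (r2 e'))).1 h'
      simp at this
      omega
    · obtain ⟨u, ⟨-, -, b⟩, c⟩ := this.2 (by omega) (θ e' + 1)
      rw [mu_append, mu_single, r2, ha, ← WithOne.coe_mul, h] at b
      have := (bd _ _ b.symm).1 h'
      omega
  obtain ⟨E, hE⟩ := lip (.inr false)
  obtain ⟨E', hE'⟩ := lip (.inr true)
  have tt : ∀ p m p' m', Tt D n (p, m) (p', m') →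
      (rep (cf p m)).length ≤ (rep (cf p' m')).length + E := fun p m p' m' h =>
    (hE (cf p m) (cf p' m') (congrArg Sum.inr ((stp_t D n).2 h)) nofun).1
  have run : ∀ r j q w, ¬Halts (D.M.step 0) (q, cnt w) → ∃ r' w', cnt w' = init n ∧ ∀ m,
      (rep (cf (r, j, some (q, w)) (2 * m))).length ≤
        (rep (cf (r', 0, some (D.q0, w')) m)).length + (r + 1) * E := by
    intro r
    induction r with
    | zero =>
      exact fun j q w _ => ⟨_, _, cnt_init (D := D) w, fun m => by
        simpa using tt _ _ _ _ (Or.inr ⟨⟨j, q, w, rfl, rfl⟩, rfl⟩)⟩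
    | succ r ih =>
      intro j q w h
      rcases e : D.M.nxt q (decide (some (D.ρ q) ∉ w)) with _ | q'
      · exact (h (.stop (by rw [step_cnt, e]; rfl))).elim
      obtain ⟨r', w', a, b⟩ := ih (j + 1) q' _ fun g => h (.go (by rw [step_cnt, e]; rfl) g)
      refine ⟨r', w', a, fun m => ?_⟩
      have := tt _ (2 * m) _ _ (Or.inl ⟨⟨r, j, q, w, q', e, rfl, rfl⟩, rfl⟩)
      have := b m
      rw [add_mul (r + 1)]
      omega
  obtain ⟨w0, h0⟩ : ∃ w, cnt w = init n := ⟨_, cnt_init (D := D) []⟩
  have ch : ∀ i, ∃ r w F, cnt w = init n ∧ ∀ m, (rep (cf (0, 0, some (D.q0, w0)) (2 ^ i * m))).length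
      ≤ (rep (cf (r, 0, some (D.q0, w)) m)).length + F := by
    intro i
    induction i with
    | zero => exact ⟨0, w0, 0, h0, by simp⟩
    | succ i ih =>
      obtain ⟨r, w, F, a, b⟩ := ih
      obtain ⟨r', w', a', b'⟩ := run r 0 D.q0 w (a ▸ hn)
      refine ⟨r', w', (r + 1) * E + F, a', fun m => ?_⟩
      have := b (2 * m)
      have := b' m
      rw [pow_succ, mul_assoc]
      omega
  obtain ⟨r, w, F, -, h⟩ := ch (C * E')
  have up : ∀ p m, (rep (cf p m)).length ≤ (rep (cf p 0)).length + E' * m := fun p m => by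
    induction m with
    | zero => simp
    | succ m ih =>
      have := (hE' (cf p m) (cf p (m + 1)) rfl nofun).2
      rw [mul_add]
      omega
  have h1 := h (C * ((rep (cf (r, 0, some (D.q0, w)) 0)).length + F) + 1)
  have h2 := up (r, 0, some (D.q0, w)) (C * ((rep (cf (r, 0, some (D.q0, w)) 0)).length + F) + 1)
  have h3 := (bd _ _ (r2 (cf (0, 0, some (D.q0, w0))
    (2 ^ (C * E') * (C * ((rep (cf (r, 0, some (D.q0, w)) 0)).length + F) + 1))))).2
  have h4 : C * E' < 2 ^ (C * E') := Nat.lt_two_pow_self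
  simp only [ξ, cf, Option.map_some, Option.getD_some] at h1 h2 h3
  generalize (rep (.inr (some ((r, 0, some (D.q0, w)), 0)))).length = a at *
  have h5 := Nat.mul_le_mul_left C (h1.trans (Nat.add_le_add_right h2 F))
  have h6 := Nat.mul_le_mul_right (C * (a + F) + 1) (Nat.succ_le_of_lt h4)
  nlinarith

end Pool.Agent.H.MP_567c26_al
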