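import Pool.Agent.H.MP_567c26_al.B

/-! The one-step relations on configuration words are rational. -/

namespace Pool.Agent.H.MP_567c26_al

open Pool.Agent.Lib.helper21.Cone Pool.Agent.Lib.RegKit Pool.Agent.Lib.helper21.While
  Pool.Agent.Lib.helper21.Mach Function Classical

section
variable {X Y : Type} [Primcodable Y] {R : ℕ → List X → List Y → Prop}

theorem NR.st (h : NR R) (a : X) (b : Y) : NR fun n u v => ∃ i u' v', R n u' v' ∧
    u = List.replicate i a ++ u' ∧ v = List.replicate i b ++ v' :=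
  ((nr_star [a] [b]).mul h).congr fun _ _ _ =>
    ⟨fun ⟨i, _, _, p, q, r⟩ => ⟨_, _, _, _, ⟨i, rfl, rfl⟩, p, by simpa using q, by simpa using r⟩, by
      rintro ⟨_, _, _, _, ⟨i, rfl, rfl⟩, p, q, r⟩
      exact ⟨i, _, _, p, by simpa using q, by simpa using r⟩⟩

theorem NR.pre (h : NR R) (x : List X) {y : ℕ → List Y} (hy : Primrec y) :
    NR fun n u v => ∃ u' v', R n u' v' ∧ u = x ++ u' ∧ v = y n ++ v' :=
  ((nr_atom x hy).mul h).congr fun _ _ _ =>
    ⟨fun ⟨_, _, p, q, r⟩ => ⟨_, _, _, _, ⟨rfl, rfl⟩, p, q, r⟩, by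
      rintro ⟨_, _, _, _, ⟨rfl, rfl⟩, p, q, r⟩
      exact ⟨_, _, p, q, r⟩⟩

theorem nr_suf [Finite X] (φ : X → List Y) {U : List X → Prop} (r : Reg U) (y : List Y) :
    NR fun _ u v => U u ∧ v = u.flatMap φ ++ y :=
  ((nr_hom φ r).mul (nr_atom [] (.const y))).congr fun _ u _ =>
    ⟨fun ⟨p, q⟩ => ⟨u, _, _, _, ⟨p, rfl⟩, ⟨rfl, rfl⟩, by simp, q⟩, by
      rintro ⟨_, _, _, _, ⟨p, rfl⟩, ⟨rfl, rfl⟩, rfl, rfl⟩
      simpa using p⟩

theorem nr_id [Finite Y] {U : List Y → Prop} (r : Reg U) (y : List Y) :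
    NR fun _ u v => U u ∧ v = u ++ y := (nr_suf (fun a => [a]) r y).congr (by simp)

theorem reg_true : Reg fun _ : List X => True := reg_univ

theorem reg_quot {P : List X → Prop} (r : Reg P) (c : X) : Reg fun u => P (u ++ [c]) := by
  obtain ⟨σ, _, δ, s, F, e⟩ := reg_iff.1 r
  exact reg_iff.2 ⟨σ, inferInstance, δ, s, fun q => F (δ q c), fun w => by
    have := e (w ++ [c])
    rw [List.foldl_append] at this
    exact this⟩

theorem nr_erase [Finite Y] [BEq Y] [LawfulBEq Y] (x : Y) :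
    NR fun _ (u v : List Y) => v = u.erase x := by
  have r : Reg fun u : List Y => x ∉ u := (reg_all (· ≠ x)).congr fun _ =>
    ⟨fun h g => h _ g rfl, fun h _ g e => h (e ▸ g)⟩
  refine ((nr_id r []).or ((nr_id r []).mul (((nr_id reg_true []).pre [x] (.const []))))).congr
    fun _ u v => ⟨?_, ?_⟩
  · rintro rfl
    by_cases h : x ∈ u
    · obtain ⟨a, b, p, q, e⟩ := List.exists_erase_eq h
      exact Or.inr ⟨a, _, _, _, ⟨p, rfl⟩, ⟨b, _, ⟨trivial, rfl⟩, rfl, rfl⟩, q, by simpa using e⟩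
    · exact Or.inl ⟨h, by simp [List.erase_of_not_mem h]⟩
  · rintro (⟨h, rfl⟩ | ⟨_, _, _, _, ⟨h, rfl⟩, ⟨_, _, ⟨-, rfl⟩, rfl, rfl⟩, rfl, rfl⟩)
    · simp [List.erase_of_not_mem h]
    · simp [List.erase_append_right _ h]

def N {J : ℕ} (f : Fin J → X) (x : X) (ω : Fin J) (m : ℕ) : List X :=
  List.replicate (m / 2 ^ (ω.val + 1)) (f ω) ++ List.replicate (m % 2 ^ (ω.val + 1)) x

theorem N_add {J : ℕ} (f : Fin J → X) (x : X) (ω : Fin J) (i m : ℕ) :
    N f x ω (2 ^ (ω.val + 1) * i + m) = List.replicate i (f ω) ++ N f x ω m := by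
  rw [N, N, Nat.mul_add_div (by positivity), Nat.mul_add_mod, List.replicate_add,
    List.append_assoc]

theorem nr_tail {J : ℕ} (f : Fin J → Y) (x : Y) (ω ω' : Fin J) (a b c d : ℕ) :
    NR fun _ u v => ∃ m, u = N f x ω (a * m + b) ∧ v = N f x ω' (c * m + d) := by
  have e : ∀ (ω ω' : Fin J) a b i ρ, N f x ω (a * (2 ^ (ω.val + 1) * 2 ^ (ω'.val + 1) * i + ρ) + b) =
      (List.replicate i (List.replicate (a * 2 ^ (ω'.val + 1)) (f ω))).flatten ++
        N f x ω (a * ρ + b) := fun ω ω' a b i ρ => by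
    rw [List.flatten_replicate_replicate, ← N_add]
    congr 1
    ring
  refine (nr_ex fun ρ : Fin (2 ^ (ω.val + 1) * 2 ^ (ω'.val + 1)) =>
    (nr_star (List.replicate (a * 2 ^ (ω'.val + 1)) (f ω))
      (List.replicate (c * 2 ^ (ω.val + 1)) (f ω'))).mul
      (nr_atom (N f x ω (a * ρ + b)) (.const (N f x ω' (c * ρ + d))))).congr fun _ u v => ⟨?_, ?_⟩
  · rintro ⟨m, rfl, rfl⟩
    refine ⟨⟨m % _, Nat.mod_lt _ (by positivity)⟩, _, _, _, _,
      ⟨m / (2 ^ (ω.val + 1) * 2 ^ (ω'.val + 1)), rfl, rfl⟩, ⟨rfl, rfl⟩, ?_, ?_⟩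
    · rw [← e, Nat.div_add_mod]
    · rw [← e, mul_comm (2 ^ (ω'.val + 1)), Nat.div_add_mod]
  · rintro ⟨ρ, _, _, _, _, ⟨i, rfl, rfl⟩, ⟨rfl, rfl⟩, rfl, rfl⟩
    exact ⟨_, (e _ ω' _ _ _ _).symm, by rw [← e, mul_comm (2 ^ (ω'.val + 1))]⟩

theorem len_N {J : ℕ} (f : Fin J → X) (x : X) (ω : Fin J) (m : ℕ) :
    m / 2 ^ (ω.val + 1) ≤ (N f x ω m).length ∧ (N f x ω m).length ≤ m / 2 ^ (ω.val + 1) + 2 ^ J := by
  have := Nat.mod_lt m (show 0 < 2 ^ (ω.val + 1) by positivity)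
  have := Nat.pow_le_pow_right two_pos (Nat.succ_le_of_lt ω.2)
  simp only [N, List.length_append, List.length_replicate, Nat.succ_eq_add_one] at *
  omega

theorem prim_map {ι : Type} {f : ι → ℕ → Y} (h : ∀ i, Primrec (f i)) (l : List ι) :
    Primrec fun n => l.map (f · n) := by
  induction l with
  | nil => exact .const []
  | cons a l ih => exact Primrec.list_cons.comp (h a) ih

theorem NR.code {k : ℕ} {R : ℕ → List (Fin k) → List (Fin k) → Prop} (h : NR R) :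
    ∃ c : ℕ → Aut, Primrec c ∧ ∀ n u v, Acc (c n) u v ↔ R n u v := by
  obtain ⟨Z, _, f, g, L, a, b, c⟩ := h
  obtain ⟨σ, _, δ, s, F, e⟩ := reg_iff.1 a
  obtain ⟨ν, hν⟩ := exists_injective_nat σ
  have := Fintype.ofFinite σ
  have := Fintype.ofFinite Z
  refine ⟨fun n => ((Finset.univ : Finset (σ × Z)).toList.map fun y =>
    (ν y.1, (f y.2).map Fin.val, (g y.2 n).map Fin.val, ν (δ y.1 y.2)), [ν s],
      (Finset.univ.filter F).toList.map ν), (prim_map (fun y : σ × Z => (Primrec.const _).pair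
        ((Primrec.const _).pair ((Primrec.list_map (b y.2)
          (Primrec.fin_val.comp .snd).to₂).pair (.const _)))) _).pair (.const _), fun n u v => ?_⟩
  have inj := List.map_injective_iff.2 (Fin.val_injective (n := k))
  simp only [c, e, Acc, List.mem_singleton, exists_eq_left, List.mem_map, Finset.mem_toList,
    Finset.mem_filter, Finset.mem_univ, true_and]
  constructor
  · rintro ⟨_, ⟨q, hq, rfl⟩, r⟩
    have : ∀ {p U V t}, Run ((Finset.univ : Finset (σ × Z)).toList.map fun y =>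
        (ν y.1, (f y.2).map Fin.val, (g y.2 n).map Fin.val, ν (δ y.1 y.2))) p U V t →
        ∀ p', ν p' = p → ∃ w : List Z, ν (w.foldl δ p') = t ∧ (w.flatMap f).map Fin.val = U ∧
          (w.flatMap (g · n)).map Fin.val = V := by
      intro p U V t r
      induction r with
      | nil p => exact fun p' e => ⟨[], e, rfl, rfl⟩
      | cons m _ ih =>
        obtain ⟨⟨p', z⟩, -, m⟩ := List.mem_map.1 m
        simp only [Prod.mk.injEq] at m
        obtain ⟨rfl, rfl, rfl, rfl⟩ := m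
        intro p'' e
        obtain rfl := hν e
        obtain ⟨w, a1, rfl, rfl⟩ := ih _ rfl
        exact ⟨z :: w, a1, by simp, by simp⟩
    obtain ⟨w, a1, a2, a3⟩ := this r s rfl
    exact ⟨w, hν a1 ▸ hq, inj a2, inj a3⟩
  · rintro ⟨w, hw, rfl, rfl⟩
    refine ⟨_, ⟨_, hw, rfl⟩, ?_⟩
    clear hw e
    induction w generalizing s with
    | nil => exact .nil _
    | cons z w ih =>
      simp only [List.flatMap_cons, List.map_append]
      exact .cons (List.mem_map.2 ⟨(s, z), by simp, rfl⟩) (ih _)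

end

variable {Q : Type} {K : ℕ} [Finite Q] [Primcodable Q] (D : Dat Q K)

theorem reg_W : Reg fun u : List (B Q K) => ∃ p, u = wd p := by
  obtain ⟨U, r, e⟩ := ((((nr_atom [] (.const [])).or (nr_ex fun q : Q =>
    ((nr_id (Y := Option (Fin K)) reg_true []).map lr (lr (Q := Q))).pre [.inl q]
      (.const []))).st (.inr (.inl false)) (.inr (.inl false))).st (.inr (.inl true))
        (.inr (.inl true))).dom
  refine r.congr fun u => (e 0 u).symm.trans ⟨?_, ?_⟩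
  · rintro ⟨_, r, _, _, ⟨j, _, _, ⟨rfl, -⟩ | ⟨q, _, _, ⟨w, _, -, rfl, -⟩, rfl, -⟩, rfl, -⟩, rfl, -⟩
    exacts [⟨(r, j, none), by simp [wd, wo]⟩, ⟨(r, j, some (q, w)), by simp [wd, wo]⟩]
  · rintro ⟨⟨r, j, _ | ⟨q, w⟩⟩, rfl⟩
    · exact ⟨_, r, _, _, ⟨j, _, _, Or.inl ⟨rfl, rfl⟩, rfl, rfl⟩, by simp [wd, wo], rfl⟩
    · exact ⟨_, r, _, _, ⟨j, _, _, Or.inr ⟨q, _, _, ⟨w, _, ⟨trivial, rfl⟩, rfl, rfl⟩, rfl, rfl⟩,
        rfl, rfl⟩, by simp [wd, wo], rfl⟩

def Gr (F : ℕ → Pf Q K → Pf Q K → Prop) (n : ℕ) (u v : List (B Q K)) : Prop :=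
  ∃ p p', F n p p' ∧ u = wd p ∧ v = wd p'

theorem nr_eq : NR (Gr fun _ (p p' : Pf Q K) => p' = p) := (nr_id reg_W []).congr fun _ _ _ =>
  ⟨by rintro ⟨_, _, rfl, rfl, rfl⟩; exact ⟨⟨_, rfl⟩, by simp⟩, by
    rintro ⟨⟨p, rfl⟩, rfl⟩; exact ⟨p, p, rfl, rfl, by simp⟩⟩

omit [Finite Q] [Primcodable Q] in
theorem fold_wd (n : ℕ) (p : Pf Q K) :
    ((wd p).map Sum.inl).foldl (stp D n) (some ((0, 0, none), 0)) = some (p, 0) := by
  obtain ⟨r, j, o⟩ := p
  have h1 : ∀ r, (List.replicate r (.inl (.inr (.inl true)))).foldl (stp D n)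
      (some ((0, 0, none), 0)) = some ((r, 0, none), 0) := fun r => by
    induction r with
    | zero => rfl
    | succ r ih => simp [List.replicate_succ', ih, stp, apd]
  have h2 : ∀ j, (List.replicate j (.inl (.inr (.inl false)))).foldl (stp D n)
      (some ((r, 0, none), 0)) = some ((r, j, none), 0) := fun j => by
    induction j with
    | zero => rfl
    | succ j ih => simp [List.replicate_succ', ih, stp, apd]
  simp only [wd, List.map_append, List.map_replicate, List.foldl_append, h1, h2]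
  rcases o with _ | ⟨q, w⟩
  · rfl
  · induction w using List.reverseRecOn with
    | nil => simp [wo, stp, apd]
    | append_singleton w c ih =>
      simp only [wo, List.map_cons, List.map_append, List.foldl_cons, List.foldl_append] at ih ⊢
      rw [ih]
      simp [stp, apd, lr]

include D in
theorem nr_apd (c : B Q K) : NR (Gr fun _ p p' => apd p c = some p') :=
  (nr_id (reg_W.and (reg_quot reg_W c)) [c]).congr fun _ _ _ =>
  ⟨by
    rintro ⟨p, p', h, rfl, rfl⟩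
    exact ⟨⟨⟨p, rfl⟩, p', (apd_wd h).symm⟩, apd_wd h⟩, by
    rintro ⟨⟨⟨p, rfl⟩, p', h⟩, rfl⟩
    have := fold_wd D 0 p'
    rw [← h, List.map_append, List.foldl_append, fold_wd] at this
    exact ⟨p, p', by simpa [stp] using this, rfl, h⟩⟩

theorem nr_ef (e : Option Bool) (x : Fin K) : NR fun _ u v => v = ef e x u := by
  rcases e with _ | _ | _
  · exact (nr_id reg_true []).congr (by simp [ef])
  · exact ((nr_erase (some x)).pre [] (.const [none])).congr (by simp [ef])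
  · exact ((nr_id reg_true []).pre [] (.const [some x])).congr (by simp [ef])

theorem nr_Tn : NR (Gr fun _ => Tn D) := by
  have r : ∀ (x : Option (Fin K)) (β : Bool), Reg fun w => decide (x ∉ w) = β := fun x β => by
    have r : Reg fun u => x ∉ u := (reg_all (· ≠ x)).congr fun _ =>
      ⟨fun h g => h _ g rfl, fun h _ g e => h (e ▸ g)⟩
    cases β
    exacts [r.not.congr (by simp), r.congr (by simp)]
  refine (((((nr_ex fun q : Q => nr_ex fun q' : Q => nr_ex fun β : Bool =>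
    nr_if (P := D.M.nxt q β = some q') fun _ =>
    ((((nr_ef (D.M.eff q β) (D.ρ q)).restrict (r (some (D.ρ q)) β)).map lr
      (lr (Q := Q))).pre [.inl q] (y := fun _ => [.inr (.inl false), .inl q']) (.const _)))).st
        (.inr (.inl false)) (.inr (.inl false))).pre [.inr (.inl true)] (.const [])).st
          (.inr (.inl true)) (.inr (.inl true))).congr fun _ _ _ => ⟨?_, ?_⟩
  · rintro ⟨_, _, ⟨r, j, q, w, q', h, rfl, rfl⟩, rfl, rfl⟩
    exact ⟨r, _, _, ⟨_, _, ⟨j, _, _, ⟨q, q', _, h, _, _, ⟨w, _, ⟨rfl, rfl⟩, rfl, rfl⟩, rfl, rfl⟩,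
      rfl, rfl⟩, rfl, rfl⟩, by simp [wd, wo, List.replicate_succ'],
      by simp [wd, wo, List.replicate_succ']⟩
  · rintro ⟨r, _, _, ⟨_, _, ⟨j, _, _, ⟨q, q', _, h, _, _, ⟨w, _, ⟨rfl, rfl⟩, rfl, rfl⟩, rfl, rfl⟩,
      rfl, rfl⟩, rfl, rfl⟩, rfl, rfl⟩
    exact ⟨_, _, ⟨r, j, q, w, q', h, rfl, rfl⟩, by simp [wd, wo, List.replicate_succ'],
      by simp [wd, wo, List.replicate_succ']⟩

theorem nr_Tr : NR (Gr (Tr D)) := by
  refine ((nr_ex fun q : Q => ((nr_hom (fun _ => [(none : Option (Fin K))]) reg_true).map lr lr).pre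
    [.inl q] (y := fun n => .inr (.inl true) :: .inl D.q0 :: List.replicate n (lr (some D.r0)))
      (Primrec.list_cons.comp (.const _) (Primrec.list_cons.comp (.const _)
        (Pool.Agent.Lib.helper21.PR.p_replicate .id (.const _))))).st (.inr (.inl false))
          (.inr (.inl true))).congr fun _ _ _ => ⟨?_, ?_⟩
  · rintro ⟨_, _, ⟨j, q, w, rfl, rfl⟩, rfl, rfl⟩
    exact ⟨j, _, _, ⟨q, _, _, ⟨w, _, ⟨trivial, rfl⟩, rfl, rfl⟩, rfl, rfl⟩, by simp [wd, wo],
      by simp [wd, wo, List.replicate_succ', ← List.map_eq_flatMap]⟩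
  · rintro ⟨j, _, _, ⟨q, _, _, ⟨w, _, ⟨-, rfl⟩, rfl, rfl⟩, rfl, rfl⟩, rfl, rfl⟩
    exact ⟨_, _, ⟨j, q, w, rfl, rfl⟩, by simp [wd, wo],
      by simp [wd, wo, List.replicate_succ', ← List.map_eq_flatMap]⟩

end Pool.Agent.H.MP_567c26_al
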