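import Pool.Agent.H.MP_567c26_al.C

/-! Normal forms for the semigroup of a counter machine, and their multiplication relations. -/

namespace Pool.Agent.H.MP_567c26_al

open Pool.Agent.Lib.helper21.Cone Pool.Agent.Lib.RegKit Pool.Agent.Lib.helper21.While
  Pool.Agent.Lib.helper21.Mach Function Classical

abbrev G (Q : Type) (K J : ℕ) : Type := Option (Yl Q K) ⊕ Fin J
abbrev El (Q : Type) (K : ℕ) : Type := (Yl Q K × List (Yl Q K)) ⊕ Option (Pf Q K × ℕ)

variable {Q : Type} {K J : ℕ} (D : Dat Q K) (n : ℕ)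

def io (y : Yl Q K) : G Q K J := .inl (some y)

def ex : G Q K J → List (Yl Q K)
  | .inl o => o.toList
  | .inr j => List.replicate (2 ^ (j.val + 1)) (.inr true)

def gen : G Q K J → SG D n
  | .inl none => cf (0, 0, none) 0
  | .inl (some y) => tw y []
  | .inr j => tw (.inr true) (List.replicate (2 ^ (j.val + 1) - 1) (.inr true))

def cw (p : Pf Q K) (ω : Fin J) (m : ℕ) : List (G Q K J) :=
  .inl none :: ((wd p).map (fun c => io (.inl c)) ++ N .inr (io (.inr true)) ω m)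

def nf (wt : Pf Q K → Fin J) : El Q K → List (G Q K J)
  | .inl a => (a.1 :: a.2).map io
  | .inr none => [.inl none, .inl none]
  | .inr (some c) => cw c.1 (wt c.1) c.2

noncomputable def act : El Q K → List (Yl Q K) → El Q K
  | .inl a, l => .inl (a.1, a.2 ++ l)
  | .inr c, l => .inr (l.foldl (stp D n) c)

def up (e : El Q K) : SG D n := e

theorem gen_inj : Injective (gen (J := J) D n) := by
  rintro ((_ | a) | a) ((_ | b) | b) h <;> simp only [gen, cf, tw] at h <;> try cases h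
  all_goals try rfl
  all_goals
    have h := congrArg List.length (Prod.mk.inj (Sum.inl.inj h)).2
    simp only [List.length_replicate, List.length_nil, pow_succ] at h
  · have := Nat.two_pow_pos b.val
    omega
  · have := Nat.two_pow_pos a.val
    omega
  · have := Nat.two_pow_pos a.val
    have := Nat.two_pow_pos b.val
    rw [Fin.ext (Nat.pow_right_injective le_rfl (show 2 ^ a.val = 2 ^ b.val by omega))]

theorem mul_mu (u : List (G Q K J)) (h : .inl none ∉ u) (e : El Q K) :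
    (up D n e : WithOne (SG D n)) * mu (gen D n) u = up D n (act D n e (u.flatMap ex)) := by
  induction u generalizing e with
  | nil => rcases e with e | e <;> simp [mu, act]
  | cons a u ih =>
    have : up D n e * gen D n a = up D n (act D n e (ex a)) := by
      rcases a with (_ | a) | a
      · simp at h
      · rcases e with e | e <;> rfl
      · have : ex (Q := Q) (K := K) (.inr a) =
            .inr true :: List.replicate (2 ^ (a.val + 1) - 1) (.inr true) := by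
          rw [← List.replicate_succ, Nat.sub_add_cancel Nat.one_le_two_pow, ex]
        rw [this]
        rcases e with e | e <;> rfl
    rw [← List.singleton_append, mu_append, mu_single, ← mul_assoc, ← WithOne.coe_mul, this,
      ih (fun g => h (List.mem_cons_of_mem _ g))]
    rcases e with e | e <;> simp [act]

theorem fold_x (k : ℕ) (p : Pf Q K) (m : ℕ) :
    (List.replicate k (.inr true)).foldl (stp D n) (some (p, m)) = some (p, m + k) := by
  induction k with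
  | zero => rfl
  | succ k ih => simp [List.replicate_succ', ih, stp, add_assoc]

theorem mu_nf (wt : Pf Q K → Fin J) (e : El Q K) : mu (gen D n) (nf wt e) = up D n e := by
  have k : ∀ a (u : List (G Q K J)), mu (gen D n) (a :: u) = up D n (gen D n a) * mu (gen D n) u :=
    fun a u => by simp [mu, up]
  rcases e with e | _ | ⟨p, m⟩
  · rw [nf, List.map_cons, k, mul_mu _ _ _ (by simp [io])]
    simp [List.flatMap_map, io, ex, gen, tw, act]
  · rw [nf, k, mu_single, ← WithOne.coe_mul]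
    rfl
  · rw [nf, cw, k, mul_mu _ _ _ (by simp [io, N, List.mem_replicate])]
    have : (N .inr (io (.inr true)) (wt p) m).flatMap ex =
        List.replicate m (.inr true : Yl Q K) := by
      simp [N, io, ex, List.flatMap_replicate, ← List.replicate_add, Nat.div_add_mod']
    rw [List.flatMap_append, this]
    simp only [List.flatMap_map, io, ex, Option.toList_some, ← List.map_eq_flatMap, gen, cf, act,
      List.foldl_append, fold_wd, fold_x, zero_add]

def Lg (wt : Pf Q K → Fin J) (u : List (G Q K J)) : Prop := ∃ e, u = nf wt e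

theorem onto (wt : Pf Q K → Fin J) : Onto (gen D n) (Lg wt) :=
  ⟨by rintro ⟨_ | _ | _, h⟩ <;> simp [nf, cw] at h, fun s => ⟨_, ⟨s, rfl⟩, mu_nf D n wt s⟩⟩

def Hw (wt : Pf Q K → Fin J) : Prop := (∀ p p', Tn D p p' → wt p' = wt p) ∧
  ∀ p p', Tr D n p p' → (wt p').val = (wt p).val - 1

def Cf (wt : Pf Q K → Fin J) (l : List (Yl Q K)) (u v : List (G Q K J)) : Prop :=
  ∃ p m p' m', l.foldl (stp D n) (some (p, m)) = some (p', m') ∧
    u = cw p (wt p) m ∧ v = cw p' (wt p') m'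

def Pl (wt : Pf Q K → Fin J) (l : List (Yl Q K)) (u v : List (G Q K J)) : Prop :=
  ∃ e, act D n e l ≠ .inr none ∧ u = nf wt e ∧ v = nf wt (act D n e l)

theorem pl_iff (wt : Pf Q K → Fin J) (l u v) : Pl D n wt l u v ↔
    (∃ u' v', (u' ≠ [] ∧ v' = u' ++ l) ∧ u = u'.map io ∧ v = v'.map io) ∨ Cf D n wt l u v := by
  constructor
  · rintro ⟨e | _ | ⟨p, m⟩, h, rfl, rfl⟩
    · exact Or.inl ⟨e.1 :: e.2, _, ⟨nofun, rfl⟩, rfl, rfl⟩
    · simp [act, fold_none] at h
    · rcases k : l.foldl (stp D n) (some (p, m)) with _ | ⟨p', m'⟩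
      · simp [act, k] at h
      · exact Or.inr ⟨p, m, p', m', k, rfl, by simp [act, k, nf]⟩
  · rintro (⟨_ | ⟨a, u⟩, _, ⟨h, rfl⟩, rfl, rfl⟩ | ⟨p, m, p', m', k, rfl, rfl⟩)
    · exact (h rfl).elim
    · exact ⟨.inl (a, u), nofun, rfl, rfl⟩
    · exact ⟨.inr (some (p, m)), by simp [act, k], rfl, by simp [act, k, nf]⟩

theorem fold_c {c : B Q K} {p m p' m'} : [Sum.inl c].foldl (stp D n) (some (p, m)) = some (p', m') ↔
    apd p c = some p' ∧ m = 0 ∧ m' = 0 := by
  simp only [List.foldl_cons, List.foldl_nil, stp]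
  split_ifs with h
  · rcases apd p c with _ | p'' <;> simp [h, eq_comm]
  · simp [h]

theorem pl_len {wt : Pf Q K → Fin J} (h : Hw D n wt) (h' : ∀ p p', Tr D n p p' → 1 ≤ (wt p).val)
    {l} (hl : (∃ k, l = List.replicate k (.inr true)) ∨ (∃ c, l = [.inl c]) ∨ l = [.inr false])
    {u v} (r : Pl D n wt l u v) : u.length ≤ v.length + (2 ^ J + l.length + n + 1) ∧
      v.length ≤ u.length + (2 ^ J + l.length + n + 1) := by
  rcases (pl_iff D n wt l u v).1 r with ⟨u, _, ⟨-, rfl⟩, rfl, rfl⟩ | ⟨p, m, p', m', k, rfl, rfl⟩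
  · have := Nat.two_pow_pos J
    simp only [List.length_map, List.length_append]
    omega
  have a := len_N .inr (io (J := J) (Q := Q) (K := K) (.inr true)) (wt p) m
  have b := len_N .inr (io (J := J) (Q := Q) (K := K) (.inr true)) (wt p') m'
  simp only [cw, List.length_cons, List.length_append, List.length_map]
  rcases hl with ⟨i, rfl⟩ | ⟨c, rfl⟩ | rfl
  · rw [fold_x] at k
    obtain ⟨rfl, rfl⟩ := Prod.mk.inj (Option.some.inj k)
    have := Nat.div_le_div_right (c := 2 ^ ((wt p).val + 1)) (Nat.le_add_right m i)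
    have := Nat.div_le_div_right (c := 2 ^ ((wt p).val + 1)) (Nat.add_le_add_left
      (Nat.le_mul_of_pos_right i (Nat.two_pow_pos ((wt p).val + 1))) m)
    rw [Nat.add_mul_div_right _ _ (Nat.two_pow_pos _)] at this
    rw [List.length_replicate]
    omega
  · obtain ⟨k', rfl, rfl⟩ := (fold_c D n).1 k
    rw [Nat.zero_div] at a b
    rw [apd_wd k', List.length_append, List.length_singleton]
    omega
  · rcases (stp_t D n).1 k with ⟨g, e⟩ | ⟨g, e⟩ <;> simp only at g e <;> subst e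
    · have := g.len
      rw [h.1 _ _ g] at b ⊢
      omega
    · have := g.len
      have := h.2 _ _ g
      have := h' _ _ g
      rw [show (wt p).val + 1 = (wt p').val + 1 + 1 by omega, pow_succ' 2 (_ + 1),
        Nat.mul_div_mul_left _ _ two_pos] at a
      omega

variable [Finite Q] [Primcodable Q] {wt : Pf Q K → Fin J}
  (hw : ∀ ω, ∃ U, Reg U ∧ ∀ p, U (wd p) ↔ wt p = ω)
include hw

theorem piece {F : ℕ → Pf Q K → Pf Q K → Prop} (h : NR (Gr F)) (κ : Fin J → Fin J) (a b c d : ℕ) :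
    NR fun n u v => ∃ p p' m, F n p p' ∧ u = cw p (wt p) (a * m + b) ∧
      v = cw p' (κ (wt p)) (c * m + d) := by
  choose U r e using hw
  refine (nr_ex fun ω => (((h.restrict (r ω)).map (fun c => io (.inl c)) (fun c => io (.inl c))).mul
    (nr_tail .inr (io (.inr true)) ω (κ ω) a b c d)).pre [.inl none]
      (.const [.inl none])).congr fun _ _ _ => ⟨?_, ?_⟩
  · rintro ⟨p, p', m, g, rfl, rfl⟩
    exact ⟨_, _, _, ⟨_, _, _, _, ⟨_, _, ⟨(e _ p).2 rfl, p, p', g, rfl, rfl⟩, rfl, rfl⟩,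
      ⟨m, rfl, rfl⟩, rfl, rfl⟩, rfl, rfl⟩
  · rintro ⟨ω, _, _, ⟨_, _, _, _, ⟨_, _, ⟨k, p, p', g, rfl, rfl⟩, rfl, rfl⟩,
      ⟨m, rfl, rfl⟩, rfl, rfl⟩, rfl, rfl⟩
    obtain rfl := (e _ p).1 k
    exact ⟨p, p', m, g, rfl, rfl⟩

theorem pl_nr {l}
    (hl : (∃ k, l = List.replicate k (.inr true)) ∨ (∃ c, l = [.inl c]) ∨ l = [.inr false]) :
    ∃ R, NR R ∧ ∀ n, Hw D n wt → ∀ u v, Pl D n wt l u v ↔ R n u v := by
  suffices ∃ R, NR R ∧ ∀ n, Hw D n wt → ∀ u v, Cf D n wt l u v ↔ R n u v by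
    obtain ⟨R, a, b⟩ := this
    exact ⟨_, ((nr_id (U := (· ≠ [])) (reg_single []).compl l).map io io).or a, fun n h u v => by
      rw [pl_iff, b n h]⟩
  rcases hl with ⟨i, rfl⟩ | ⟨c, rfl⟩ | rfl
  · refine ⟨_, piece hw nr_eq id 1 0 1 i, fun n _ u v => ⟨?_, ?_⟩⟩
    · rintro ⟨p, m, p', m', k, rfl, rfl⟩
      rw [fold_x] at k
      obtain ⟨rfl, rfl⟩ := Prod.mk.inj (Option.some.inj k)
      exact ⟨p, p, m, rfl, by simp, by simp⟩
    · rintro ⟨_, p, m, rfl, rfl, rfl⟩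
      exact ⟨_, _, _, _, fold_x D n i p m, by simp, by simp⟩
  · refine ⟨_, piece hw (nr_apd D c) id 0 0 0 0, fun n _ u v => ⟨?_, ?_⟩⟩
    · rintro ⟨p, m, p', m', k, rfl, rfl⟩
      obtain ⟨k', rfl, rfl⟩ := (fold_c D n).1 k
      exact ⟨p, p', 0, k', by simp, by simp [cw, N]⟩
    · rintro ⟨p, p', m, k, rfl, rfl⟩
      exact ⟨p, 0, p', 0, (fold_c D n).2 ⟨k, rfl, rfl⟩, by simp, by simp [cw, N]⟩
  · refine ⟨_, (piece hw (nr_Tn D) id 1 0 1 0).or (piece hw (nr_Tr D)
      (fun ω => ⟨ω.val - 1, by omega⟩) 2 0 1 0), fun n h u v => ⟨?_, ?_⟩⟩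
    · rintro ⟨p, m, p', m', k, rfl, rfl⟩
      rcases (stp_t D n).1 k with ⟨g, e⟩ | ⟨g, e⟩ <;> simp only at g e <;> subst e
      · exact Or.inl ⟨p, p', m', g, by simp, by simp [h.1 _ _ g]⟩
      · exact Or.inr ⟨p, p', m', g, by simp, by simp [← h.2 _ _ g]⟩
    · rintro (⟨p, p', m, g, rfl, rfl⟩ | ⟨p, p', m, g, rfl, rfl⟩)
      · exact ⟨p, m, p', m, (stp_t D n).2 (Or.inl ⟨g, rfl⟩), by simp, by simp [h.1 _ _ g]⟩
      · exact ⟨p, _, p', m, (stp_t D n).2 (Or.inr ⟨g, rfl⟩), by simp, by simp [← h.2 _ _ g]⟩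

theorem reg_L (h : Hw D n wt) : Reg (Lg wt) := by
  obtain ⟨R, a, b⟩ := pl_nr D hw (Or.inl ⟨0, rfl⟩)
  obtain ⟨U, r, e⟩ := a.dom
  refine (r.or (P := U) (Q := (· = [.inl none, .inl none])) (reg_single _)).congr fun u => ?_
  simp only [← e n, ← b n h]
  constructor
  · rintro (⟨_, e, -, rfl, -⟩ | rfl)
    exacts [⟨e, rfl⟩, ⟨.inr none, rfl⟩]
  · rintro ⟨e | _ | e, rfl⟩
    exacts [Or.inl ⟨_, .inl e, nofun, rfl, rfl⟩, Or.inr rfl,
      Or.inl ⟨_, .inr (some e), nofun, rfl, rfl⟩]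

theorem rel_split (hL : Reg (Lg wt)) {w : List (G Q K J)} (h : w = [] ∨ ∃ a, w = [a]) :
    ∃ R U, NR R ∧ Reg U ∧ ∀ n, Hw D n wt →
      (∀ u v, Rel (gen D n) (Lg wt) w u v ↔ R n u v ∨ (U u ∧ v = [.inl none, .inl none])) ∧
      ((∀ p p', Tr D n p p' → 1 ≤ (wt p).val) → ∃ E, ∀ u v, R n u v →
        u.length ≤ v.length + E ∧ v.length ≤ u.length + E) := by
  by_cases g : w = [.inl none]
  · subst g
    have k : ∀ n e, mu (gen D n) (nf wt e ++ [.inl none]) = up D n (.inr none) := fun n e => by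
      rw [mu_append, mu_nf, mu_single, ← WithOne.coe_mul]
      rcases e with e | e <;> rfl
    refine ⟨_, _, nr_false, hL, fun n _ => ⟨fun u v => ⟨?_, ?_⟩, fun _ => ⟨0, nofun⟩⟩⟩
    · rintro ⟨⟨e, rfl⟩, ⟨e', rfl⟩, q⟩
      rw [k, mu_nf] at q
      obtain rfl : Sum.inr none = e' := WithOne.coe_inj.1 q
      exact Or.inr ⟨⟨e, rfl⟩, rfl⟩
    · rintro (⟨⟨⟩⟩ | ⟨⟨e, rfl⟩, rfl⟩)
      exact ⟨⟨e, rfl⟩, ⟨.inr none, rfl⟩, (k n e).trans (mu_nf D n wt (.inr none)).symm⟩
  have hs : .inl none ∉ w := by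
    rcases h with rfl | ⟨a, rfl⟩
    · simp
    · exact fun k => g (by rw [List.mem_singleton.1 k])
  have hl : (∃ k, w.flatMap ex = List.replicate k (.inr true)) ∨ (∃ c, w.flatMap ex = [.inl c]) ∨
      w.flatMap ex = [.inr false] := by
    rcases h with rfl | ⟨(_ | c | _ | _) | j, rfl⟩
    exacts [Or.inl ⟨0, rfl⟩, Or.inl ⟨0, rfl⟩, Or.inr (Or.inl ⟨c, rfl⟩), Or.inr (Or.inr rfl),
      Or.inl ⟨1, rfl⟩, Or.inl ⟨_, List.append_nil _⟩]
  obtain ⟨R, a, b⟩ := pl_nr D hw hl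
  obtain ⟨U, r, e⟩ := a.dom
  refine ⟨R, _, a, hL.and r.not, fun n H => ⟨fun u v => ?_, fun H' =>
    ⟨_, fun u v k => pl_len D n H H' hl ((b n H u v).2 k)⟩⟩⟩
  have k : ∀ e, mu (gen D n) (nf wt e ++ w) = up D n (act D n e (w.flatMap ex)) := fun e => by
    rw [mu_append, mu_nf, mul_mu _ _ _ hs]
  simp only [← e n, ← b n H]
  constructor
  · rintro ⟨⟨e, rfl⟩, ⟨e', rfl⟩, q⟩
    rw [k, mu_nf] at q
    obtain rfl : act D n e (w.flatMap ex) = e' := WithOne.coe_inj.1 q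
    by_cases z : act D n e (w.flatMap ex) = .inr none
    · refine Or.inr ⟨⟨⟨e, rfl⟩, ?_⟩, by rw [z]; rfl⟩
      rintro ⟨_, e', a1, a2, -⟩
      have := congrArg (mu (gen D n)) a2
      rw [mu_nf, mu_nf] at this
      obtain rfl : e = e' := WithOne.coe_inj.1 this
      exact a1 z
    · exact Or.inl ⟨e, z, rfl, rfl⟩
  · rintro (⟨e, -, rfl, rfl⟩ | ⟨⟨⟨e, rfl⟩, z⟩, rfl⟩)
    · exact ⟨⟨_, rfl⟩, ⟨_, rfl⟩, by rw [k, mu_nf]⟩
    · have : act D n e (w.flatMap ex) = .inr none := by_contra fun y => z ⟨_, e, y, rfl, rfl⟩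
      exact ⟨⟨_, rfl⟩, ⟨.inr none, rfl⟩, by rw [k, this]; exact (mu_nf D n wt _).symm⟩

end Pool.Agent.H.MP_567c26_al
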