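import Pool.Agent.H.MP_567c26_al.D

/-! The semigroups are uniformly quasi-automatic, and automatic when the machine halts. -/

namespace Pool.Agent.H.MP_567c26_al

open Pool.Agent.Lib.helper21.Cone Pool.Agent.Lib.RegKit Pool.Agent.Lib.helper21.While
  Pool.Agent.Lib.helper21.Mach Function Classical

variable {Q : Type} {K J : ℕ} (D : Dat Q K) (n : ℕ)

def It (k : ℕ) (c : Q × St) : Prop := (fun o => o.bind (D.M.step 0))^[k] (some c) = none

theorem It_succ {k c c'} (h : D.M.step 0 c = some c') : It D (k + 1) c ↔ It D k c' := by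
  rw [It, iterate_succ_apply, Option.bind_some, h, It]

theorem It_trunc (k : ℕ) : ∀ (q : Q) (s s' : St), (∀ i, min (s i) k = min (s' i) k) →
    It D k (q, s) → It D k (q, s') := by
  induction k with
  | zero => exact fun _ _ _ _ => nofun
  | succ k ih =>
    intro q s s' h g
    have e : D.M.tst 0 (q, s) = D.M.tst 0 (q, s') := by
      have := h (D.M.reg q)
      simp only [CM.tst, CM.thr, ite_self, decide_eq_decide]
      omega
    rcases a : D.M.nxt q (D.M.tst 0 (q, s')) with _ | q'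
    · rw [It, iterate_succ_apply, Option.bind_some, CM.step, a]
      exact iterate_fixed rfl k
    · rw [It_succ D (by rw [CM.step, e, a]; rfl)] at g
      rw [It_succ D (by rw [CM.step, a]; rfl)]
      refine ih _ _ _ (fun i => ?_) g
      have := h i
      rcases D.M.eff q (D.M.tst 0 (q, s')) with _ | _ | _ <;> simp only [app, update_apply] <;>
        (try split_ifs with b) <;> (try subst b) <;> omega

noncomputable def ct (x : B Q K) (u : List (B Q K)) : ℕ := u.countP (· = x)

noncomputable def cW (u : List (B Q K)) : St :=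
  fun i => if h : i < K then ct (lr (some ⟨i, h⟩)) u else 0

noncomputable def wW (T : ℕ) (u : List (B Q K)) : ℕ :=
  if ct (.inr (.inl true)) u + ct (.inr (.inl false)) u < T then
    T - (ct (.inr (.inl true)) u + ct (.inr (.inl false)) u)
  else if ∃ q, 0 < ct (.inl q) u ∧ It D (T - ct (.inr (.inl false)) u) (q, cW u) then 0 else 1

theorem wW_lt (T u) : wW D T u < T + 2 := by
  unfold wW
  split_ifs <;> omega

theorem wW_wd (T r j q w) : wW D T (wd (r, j, some (q, w))) =
    if r + j < T then T - (r + j) else if It D (T - j) (q, cnt w) then 0 else 1 := by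
  have a : ct (.inr (.inl true)) (wd (r, j, some (q, w))) = r := by
    simp [ct, wd, wo, lr, List.countP_replicate]
  have b : ct (.inr (.inl false)) (wd (r, j, some (q, w))) = j := by
    simp [ct, wd, wo, lr, List.countP_replicate]
  have c : ∀ q', 0 < ct (.inl q') (wd (r, j, some (q, w))) ↔ q' = q := fun q' => by
    simp [ct, wd, wo, lr, eq_comm]
  have d : cW (wd (r, j, some (q, w))) = cnt w := by
    funext i
    simp only [cW, cnt]
    split_ifs
    · simp [ct, wd, wo, lr, List.countP_replicate, List.count, comp_def]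
      congr 1
      funext x
      rw [Bool.eq_iff_iff]
      simp
    · rfl
  simp only [wW, a, b, c, d, exists_eq_left]

theorem wW_congr (T : ℕ) {u v : List (B Q K)} (h : ∀ x, min (ct x u) (T + 1) = min (ct x v) (T + 1)) :
    wW D T u = wW D T v := by
  have k : ∀ {u v : List (B Q K)}, (∀ x, min (ct x u) (T + 1) = min (ct x v) (T + 1)) →
      (∃ q, 0 < ct (.inl q) u ∧ It D (T - ct (.inr (.inl false)) u) (q, cW u)) →
        ∃ q, 0 < ct (.inl q) v ∧ It D (T - ct (.inr (.inl false)) v) (q, cW v) := by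
    rintro u v h ⟨q, a, b⟩
    have := h (.inl q)
    have := h (.inr (.inl false))
    rw [show T - ct (.inr (.inl false)) u = T - ct (.inr (.inl false)) v by omega] at b
    refine ⟨q, by omega, It_trunc D _ _ _ _ (fun i => ?_) b⟩
    simp only [cW]
    split_ifs with g
    · have := h (lr (some ⟨i, g⟩))
      omega
    · rfl
  have := h (.inr (.inl false))
  have := h (.inr (.inl true))
  simp only [wW, propext (Iff.intro (k h) (k fun x => (h x).symm))]
  split_ifs <;> omega

theorem reg_wW [Finite Q] (T i : ℕ) : Reg fun u => wW D T u = i :=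
  reg_of_col (fun u (x : B Q K) => (⟨min (ct x u) (T + 1), by omega⟩ : Fin (T + 2)))
    fun u v h w (g : wW D T (u ++ w) = i) => (wW_congr D T fun x => by
      have := congrArg Fin.val (congrFun h x)
      simp only [ct, List.countP_append] at this ⊢
      omega).trans g

theorem wW_Tn (T : ℕ) {p p'} (h : Tn D p p') : wW D T (wd p') = wW D T (wd p) := by
  obtain ⟨r, j, q, w, q', a, rfl, rfl⟩ := h
  rw [wW_wd, wW_wd, show r + (j + 1) = r + 1 + j by ring]
  congr 2
  by_cases g : j < T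
  · rw [show T - j = T - (j + 1) + 1 by omega, It_succ D (by rw [step_cnt, a]; rfl)]
  · rw [show T - j = 0 by omega, show T - (j + 1) = 0 by omega]
    simp [It]

theorem wW_Tr {T : ℕ} (hT : It D T (D.q0, init n)) {p p'} (h : Tr D n p p') :
    wW D T (wd p') + 1 = wW D T (wd p) := by
  obtain ⟨j, q, w, rfl, rfl⟩ := h
  rw [wW_wd, wW_wd, cnt_init, Nat.sub_zero, if_pos hT]
  by_cases g : j < T
  · split_ifs <;> omega
  · rw [show T - j = 0 by omega, if_neg (show ¬It D 0 _ from nofun)]
    split_ifs <;> omega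

variable [Finite Q] [Primcodable Q]

theorem rel_fin {wt : Pf Q K → Fin J} (hw : ∀ ω, ∃ U, Reg U ∧ ∀ p, U (wd p) ↔ wt p = ω)
    (hL : Reg (Lg wt)) {k : ℕ} (e : G Q K J ≃ Fin k) {w : List (Fin k)} (h : w = [] ∨ ∃ a, w = [a]) :
    ∃ R U z, NR R ∧ Reg U ∧ ∀ n, Hw D n wt →
      (∀ u v, Rel (gen D n ∘ e.symm) (fun u => Lg wt (u.map e.symm)) w u v ↔
        R n u v ∨ (U u ∧ v = z)) ∧
      ((∀ p p', Tr D n p p' → 1 ≤ (wt p).val) → ∃ E, ∀ u v, R n u v →
        u.length ≤ v.length + E ∧ v.length ≤ u.length + E) := by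
  obtain ⟨R, U, a, b, c⟩ := rel_split D hw hL (w := w.map e.symm) (by
    rcases h with rfl | ⟨a, rfl⟩
    exacts [Or.inl rfl, Or.inr ⟨_, rfl⟩])
  refine ⟨fun n u v => R n (u.map e.symm) (v.map e.symm), fun u => U (u.map e.symm),
    [e (.inl none), e (.inl none)], (a.map e e).congr fun n u v =>
      ⟨fun g => ⟨_, _, g, by simp, by simp⟩, by rintro ⟨_, _, g, rfl, rfl⟩; simpa using g⟩,
    (reg_pre (fun a => [e.symm a]) b).congr (by simp [← List.map_eq_flatMap]), fun n H =>
      ⟨fun u v => ?_, fun H' => ((c n H).2 H').imp fun E g u v r => by simpa using g _ _ r⟩⟩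
  have : v = [e (.inl none), e (.inl none)] ↔ v.map e.symm = [.inl none, .inl none] :=
    ⟨by rintro rfl; simp, fun g => by simpa using congrArg (List.map e) g⟩
  rw [this, ← (c n H).1]
  simp only [Rel, mu, List.map_map, ← List.map_append, comp_def]

omit [Finite Q] [Primcodable Q] in
theorem onto_fin (wt : Pf Q K → Fin J) {k : ℕ} (e : G Q K J ≃ Fin k) :
    Onto (gen D n ∘ e.symm) (fun u => Lg wt (u.map e.symm)) :=
  ⟨(onto D n wt).1, fun s => by
    obtain ⟨u, a, b⟩ := (onto D n wt).2 s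
    exact ⟨u.map e, by simpa using a, by simpa [mu, comp_def] using b⟩⟩

theorem auto (P : Prop) (h : Halts (D.M.step 0) (D.q0, init n)) : Automatic P (SG D n) := by
  obtain ⟨T, hT⟩ := (halts_iff _ _).1 h
  let wt : Pf Q K → Fin (T + 2) := fun p => ⟨_, wW_lt D T (wd p)⟩
  have hw : ∀ ω, ∃ U, Reg U ∧ ∀ p, U (wd p) ↔ wt p = ω := fun ω =>
    ⟨_, reg_wW D T ω.val, fun p => (Fin.ext_iff (a := wt p)).symm⟩
  have H : Hw D n wt := ⟨fun p p' g => Fin.ext (wW_Tn D T g), fun p p' g =>
    Nat.eq_sub_of_add_eq (wW_Tr D n hT g)⟩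
  have hL := reg_L D n hw H
  obtain ⟨k, ⟨e⟩⟩ := Finite.exists_equiv_fin (G Q K (T + 2))
  have key : ∀ w : List (Fin k), (w = [] ∨ ∃ a, w = [a]) →
      Sync (Rel (gen D n ∘ e.symm) (fun u => Lg wt (u.map e.symm)) w) := fun w g => by
    obtain ⟨R, U, z, a, b, c⟩ := rel_fin D hw hL e g
    obtain ⟨E, hE⟩ := (c n H).2 fun p p' g => (Nat.le_add_left _ _).trans_eq (wW_Tr D n hT g)
    exact ((a.syn n E hE).or (syn_prod (V := (· = z)) b (reg_single z))).congr (c n H).1
  exact ⟨k, _, _, fun _ => (gen_inj D n).comp e.symm.injective,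
    (reg_pre (fun a => [e.symm a]) hL).congr (by simp [← List.map_eq_flatMap]),
    onto_fin D n wt e, key _ (Or.inl rfl), fun a => key _ (Or.inr ⟨a, rfl⟩)⟩

theorem quasi : ∃ c : ℕ → Code, Primrec c ∧ ∀ n, Quasi (c n) (SG D n) := by
  let wt : Pf Q K → Fin 1 := fun _ => 0
  have hw : ∀ ω, ∃ U, Reg U ∧ ∀ p, U (wd p) ↔ wt p = ω := fun ω =>
    ⟨_, reg_true, fun p => by simp [Subsingleton.elim (wt p) ω]⟩
  have H : ∀ n, Hw D n wt := fun n => ⟨fun _ _ _ => rfl, fun _ _ _ => rfl⟩
  have hL := reg_L D 0 hw (H 0)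
  obtain ⟨k, ⟨e⟩⟩ := Finite.exists_equiv_fin (G Q K 1)
  have key : ∀ w : List (Fin k), (w = [] ∨ ∃ a, w = [a]) → ∃ c : ℕ → Aut, Primrec c ∧ ∀ n u v,
      Acc (c n) u v ↔ Rel (gen D n ∘ e.symm) (fun u => Lg wt (u.map e.symm)) w u v := fun w g => by
    obtain ⟨R, U, z, a, b, c⟩ := rel_fin D hw hL e g
    exact ((a.or (nr_suf (fun _ => []) b z)).congr fun n u v => by
      rw [(c n (H n)).1, List.flatMap_eq_nil_iff.2 fun _ _ => rfl, List.nil_append]).code
  obtain ⟨c0, a0, b0⟩ := key _ (Or.inl rfl)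
  choose c1 a1 b1 using fun a => key _ (Or.inr ⟨a, rfl⟩)
  obtain ⟨cL, aL, bL⟩ := (nr_hom (fun _ => ([] : List (Fin k)))
    (reg_pre (fun a => [e.symm a]) hL)).code
  refine ⟨fun n => (k, cL n, c0 n, (List.finRange k).map (c1 · n)), (Primrec.const _).pair
    (aL.pair (a0.pair (prim_map a1 _))), fun n => ?_⟩
  have : (fun u : List (Fin k) => Acc (cL n) u []) = fun u => Lg wt (u.map e.symm) :=
    funext fun u => by simp [bL, ← List.map_eq_flatMap]
  refine ⟨gen D n ∘ e.symm, (gen_inj D n).comp e.symm.injective, ?_⟩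
  simp only [this]
  exact ⟨onto_fin D n wt e, b0 n, fun a => ⟨c1 a n, by simp, b1 a n⟩⟩

end Pool.Agent.H.MP_567c26_al
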